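import Pool.Agent.Y504.CO.Stm

/-! # Project CO, job TOP (helper3 for helper504) -/

set_option autoImplicit false

open Filter Set Topology

universe u

namespace Pool.Agent.Y3.CO

open Pool.Agent.TH80.OMS

/-- coded periodic orbits give an uncountable nonwandering set -/
theorem main : Pool.Agent.Y504.CO.S_TOP.{u} := by
  intro X _ _ _ g hg K hK hdisj τ h hcount
  classical
  choose x hxper hxK using h
  have hlim : ∀ σ : ℕ → Bool, ∃ y : X,
      Tendsto (fun q => x q σ) (Filter.hyperfilter ℕ : Filter ℕ) (𝓝 y) := by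
    intro σ
    obtain ⟨y, -, hy⟩ := isCompact_univ.ultrafilter_le_nhds
      (Ultrafilter.map (fun q => x q σ) (Filter.hyperfilter ℕ)) (by simp)
    exact ⟨y, hy⟩
  choose y hy using hlim
  have hΩ : ∀ σ, y σ ∈ Omega g := by
    intro σ W hW hyW
    have h1 : ∀ᶠ q in (Filter.hyperfilter ℕ : Filter ℕ), x q σ ∈ W :=
      (hy σ) (hW.mem_nhds hyW)
    obtain ⟨q, hq⟩ := h1.exists
    obtain ⟨m, hm, hm2⟩ := hxper q σ
    exact ⟨m, hm, x q σ, hq, by rw [hm2]; exact hq⟩
  have hcode : ∀ σ j, g^[∑ i ∈ Finset.range j, τ (σ i)] (y σ) ∈ K (σ j) := by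
    intro σ j
    have hcl : IsClosed (g^[∑ i ∈ Finset.range j, τ (σ i)] ⁻¹' K (σ j)) :=
      (hK _).preimage (hg.iterate _)
    refine hcl.mem_of_tendsto (hy σ) ?_
    have h1 : ∀ᶠ q in (Filter.cofinite : Filter ℕ), j < q := by
      rw [Nat.cofinite_eq_atTop]
      exact eventually_gt_atTop j
    exact (h1.filter_mono Filter.hyperfilter_le_cofinite).mono fun q hq => hxK q σ j hq
  have hinj : Function.Injective y := by
    intro σ σ' he
    by_contra hne
    have hex : ∃ j, σ j ≠ σ' j := by
      by_contra hcon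
      push Not at hcon
      exact hne (funext hcon)
    have hj := Nat.find_spec hex
    have hlt : ∀ i < Nat.find hex, σ i = σ' i := fun i hi => by
      by_contra hcon
      exact Nat.find_min hex hi hcon
    set j := Nat.find hex
    have h1 := hcode σ j
    have h2 := hcode σ' j
    have h3 : ∑ i ∈ Finset.range j, τ (σ i) = ∑ i ∈ Finset.range j, τ (σ' i) :=
      Finset.sum_congr rfl fun i hi => by rw [hlt i (Finset.mem_range.mp hi)]
    rw [← h3, ← he] at h2
    rw [Set.disjoint_left] at hdisj
    cases hb : σ j <;> cases hb' : σ' j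
    · exact hj (hb.trans hb'.symm)
    · rw [hb] at h1
      rw [hb'] at h2
      exact hdisj h2 h1
    · rw [hb] at h1
      rw [hb'] at h2
      exact hdisj h1 h2
    · exact hj (hb.trans hb'.symm)
  have hc : (Set.range y).Countable := hcount.mono (by rintro _ ⟨σ, rfl⟩; exact hΩ σ)
  have hc2 : Countable (ℕ → Bool) := by
    have h1 : Countable (Set.range y) := hc.to_subtype
    exact (Function.Injective.countable (f := fun σ => (⟨y σ, σ, rfl⟩ : Set.range y))
      (fun a b hab => hinj (congrArg Subtype.val hab)))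
  obtain ⟨F, hF⟩ := exists_surjective_nat (ℕ → Bool)
  obtain ⟨n, hn⟩ := hF (fun n => !(F n n))
  have := congrFun hn n
  simp at this

end Pool.Agent.Y3.CO
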